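import Pool.Agent.W323.PT.Stm

/-! PT-All: if all orientations are positive there is a pattern. -/

set_option autoImplicit false

namespace Pool.Agent.W822.PT

open Pool.Agent.W323.PT

theorem o_rot (a b c : Pt) : o a b c = o b c a := by
  unfold o; ring

theorem o_rot' (a b c : Pt) : o a b c = o c a b := by
  unfold o; ring

theorem D_rot (t1 t2 t3 t4 t5 t6 : Pt) : D t2 t3 t4 t5 t6 t1 = - D t1 t2 t3 t4 t5 t6 := by
  unfold D o; ring

theorem pos3 (P : Bool → ℕ → Pt) (h : Hom 20 P (fun _ _ _ => true)) (b : Fin 13 → Bool) (idx : Fin 13 → ℕ)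
    (hi : ∀ i j k : Fin 13, i < j → j < k → (idx i < idx j ∧ idx j < idx k ∧ idx k < 20) ∨
      (idx k < idx i ∧ idx i < idx j ∧ idx j < 20) ∨ (idx j < idx k ∧ idx k < idx i ∧ idx i < 20)) :
    ∀ i j k : Fin 13, i < j → j < k → 0 < o (P (b i) (idx i)) (P (b j) (idx j)) (P (b k) (idx k)) := by
  intro i j k hij hjk
  rcases hi i j k hij hjk with h1 | h1 | h1
  · exact (h _ _ _ h1.1 h1.2.1 h1.2.2 _ _ _).1 rfl
  · rw [o_rot']
    exact (h _ _ _ h1.1 h1.2.1 h1.2.2 _ _ _).1 rfl
  · rw [o_rot]
    exact (h _ _ _ h1.1 h1.2.1 h1.2.2 _ _ _).1 rfl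

/-- index list in the first case -/
def i1 : Fin 13 → ℕ := ![0, 2, 3, 4, 5, 6, 10, 11, 12, 13, 14, 18, 19]

/-- index list in the second case -/
def i2 : Fin 13 → ℕ := ![2, 6, 7, 8, 9, 10, 14, 15, 16, 17, 18, 0, 1]

theorem h1 : ∀ i j k : Fin 13, i < j → j < k → (i1 i < i1 j ∧ i1 j < i1 k ∧ i1 k < 20) ∨
      (i1 k < i1 i ∧ i1 i < i1 j ∧ i1 j < 20) ∨ (i1 j < i1 k ∧ i1 k < i1 i ∧ i1 i < 20) := by
  decide +kernel

theorem h2 : ∀ i j k : Fin 13, i < j → j < k → (i2 i < i2 j ∧ i2 j < i2 k ∧ i2 k < 20) ∨
      (i2 k < i2 i ∧ i2 i < i2 j ∧ i2 j < 20) ∨ (i2 j < i2 k ∧ i2 k < i2 i ∧ i2 i < 20) := by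
  decide +kernel

/-- letters: only the last point may be the point of the other chain -/
def bb (e : Bool) : Fin 13 → Bool := fun i => if i = 12 then e else false

theorem l1 (P : Bool → ℕ → Pt) (e : Bool) : (fun i => P (bb e i) (i1 i)) =
    ![P false 0, P false 2, P false 3, P false 4, P false 5, P false 6, P false 10, P false 11, P false 12,
      P false 13, P false 14, P false 18, P e 19] := by
  funext i
  fin_cases i <;> simp [bb, i1]

theorem l2 (P : Bool → ℕ → Pt) (e : Bool) : (fun i => P (bb e i) (i2 i)) =
    ![P false 2, P false 6, P false 7, P false 8, P false 9, P false 10, P false 14, P false 15, P false 16,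
      P false 17, P false 18, P false 0, P e 1] := by
  funext i
  fin_cases i <;> simp [bb, i2]

theorem all : S_Hex → S_All := by
  intro hH P h
  by_cases hD : D (P false 0) (P false 2) (P false 6) (P false 10) (P false 14) (P false 18) ≤ 0
  · have hp := hH (P false 0) (P false 2) (P false 3) (P false 4) (P false 5) (P false 6) (P false 10)
      (P false 11) (P false 12) (P false 13) (P false 14) (P false 18) (P false 19) (P true 19) ?_ hD
    · refine ⟨![(false, 0), (false, 10), (false, 6), (false, 18), (false, 3), (false, 5), (false, 11), (false, 13)],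
        (false, 4), (false, 12), 19, ?_, by decide, by decide, by decide, by decide, by decide, by decide, ?_, hp⟩
      · decide
      · decide
    · intro L hL
      rcases hL with hL | hL
      · rw [hL, ← l1 P false]
        exact pos3 P h (bb false) i1 h1
      · rw [hL, ← l1 P true]
        exact pos3 P h (bb true) i1 h1
  · have hD' : D (P false 2) (P false 6) (P false 10) (P false 14) (P false 18) (P false 0) ≤ 0 := by
      rw [D_rot]
      push Not at hD
      linarith
    have hp := hH (P false 2) (P false 6) (P false 7) (P false 8) (P false 9) (P false 10) (P false 14)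
      (P false 15) (P false 16) (P false 17) (P false 18) (P false 0) (P false 1) (P true 1) ?_ hD'
    · refine ⟨![(false, 2), (false, 14), (false, 10), (false, 0), (false, 7), (false, 9), (false, 15), (false, 17)],
        (false, 8), (false, 16), 1, ?_, by decide, by decide, by decide, by decide, by decide, by decide, ?_, hp⟩
      · decide
      · decide
    · intro L hL
      rcases hL with hL | hL
      · rw [hL, ← l2 P false]
        exact pos3 P h (bb false) i2 h2
      · rw [hL, ← l2 P true]
        exact pos3 P h (bb true) i2 h2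

end Pool.Agent.W822.PT
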